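import Mathlib

set_option autoImplicit false

namespace Pool.Agent.Helper868_zf

open Finset

/-- A set of vertices is homogeneous if it is a clique or an independent set. -/
def Homogeneous {V : Type} (G : SimpleGraph V) (S : Finset V) : Prop :=
  G.IsClique (S : Set V) ∨ G.IsIndepSet (S : Set V)

/-- Feasible solutions of the linear program: non-negative weights on homogeneous sets such that
each vertex gets total weight at least one. -/
def IsFracCover {V : Type} [Fintype V] [DecidableEq V] (G : SimpleGraph V)
    (w : Finset V → ℝ) : Prop :=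
  (∀ S, 0 ≤ w S) ∧ (∀ S, ¬ Homogeneous G S → w S = 0) ∧ ∀ v, 1 ≤ ∑ S with v ∈ S, w S

/-- The fractional cochromatic number. -/
noncomputable def Zf {V : Type} [Fintype V] [DecidableEq V] (G : SimpleGraph V) : ℝ :=
  sInf {s | ∃ w : Finset V → ℝ, IsFracCover G w ∧ s = ∑ S, w S}

/-- The maximum of the fractional cochromatic number over graphs with `n` vertices and `m`
edges. -/
noncomputable def ZfMax (n m : ℕ) : ℝ :=
  sSup {z | ∃ G : SimpleGraph (Fin n), G.edgeSet.ncard = m ∧ z = Zf G}

section basic

variable {V : Type} [Fintype V] [DecidableEq V]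

lemma bdd (G : SimpleGraph V) :
    BddBelow {s | ∃ w : Finset V → ℝ, IsFracCover G w ∧ s = ∑ S, w S} := by
  refine ⟨0, ?_⟩
  rintro s ⟨w, hw, rfl⟩
  exact Finset.sum_nonneg fun S _ => hw.1 S

lemma Zf_le_of_fam (G : SimpleGraph V) {ι : Type} [Fintype ι] (a : ι → ℝ) (B : ι → Finset V)
    (ha : ∀ i, 0 ≤ a i) (hB : ∀ i, Homogeneous G (B i))
    (hc : ∀ v, 1 ≤ ∑ i, (if v ∈ B i then a i else 0)) : Zf G ≤ ∑ i, a i := by
  classical
  apply csInf_le (bdd G)
  refine ⟨fun T => ∑ i with B i = T, a i, ⟨?_, ?_, ?_⟩, ?_⟩
  · intro S; exact Finset.sum_nonneg fun i _ => ha i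
  · intro S hS
    apply Finset.sum_eq_zero
    intro i hi
    rw [Finset.mem_filter] at hi
    exact absurd (hi.2 ▸ hB i) hS
  · intro v
    refine le_trans (hc v) (le_of_eq ?_)
    rw [Finset.sum_filter]
    have : ∀ S : Finset V, (if v ∈ S then ∑ i with B i = S, a i else 0)
        = ∑ i with B i = S, (if v ∈ B i then a i else 0) := by
      intro S
      split_ifs with h
      · apply Finset.sum_congr rfl
        intro i hi
        rw [Finset.mem_filter] at hi
        rw [hi.2, if_pos h]
      · symm
        apply Finset.sum_eq_zero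
        intro i hi
        rw [Finset.mem_filter] at hi
        rw [hi.2, if_neg h]
    rw [Finset.sum_congr rfl fun S _ => this S]
    rw [Finset.sum_fiberwise]
  · rw [Finset.sum_fiberwise]

lemma exists_cover (G : SimpleGraph V) :
    {s | ∃ w : Finset V → ℝ, IsFracCover G w ∧ s = ∑ S, w S}.Nonempty := by
  classical
  refine ⟨_, fun S => if S.card ≤ 1 then 1 else 0, ⟨?_, ?_, ?_⟩, rfl⟩
  · intro S; dsimp only; split_ifs <;> norm_num
  · intro S hS
    dsimp only
    rw [if_neg]
    intro h
    apply hS
    left
    intro a ha b hb hab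
    exact absurd (Finset.card_le_one.mp h a ha b hb) hab
  · intro v
    have h1 : ({v} : Finset V) ∈ (Finset.univ.filter fun S : Finset V => v ∈ S) := by simp
    have := Finset.single_le_sum (f := fun S : Finset V => if S.card ≤ 1 then (1:ℝ) else 0)
      (s := Finset.univ.filter fun S : Finset V => v ∈ S)
      (fun S _ => by split_ifs <;> norm_num) h1
    simpa using this

lemma Zf_nonneg (G : SimpleGraph V) : 0 ≤ Zf G := by
  apply le_csInf (exists_cover G)
  rintro s ⟨w, hw, rfl⟩
  exact Finset.sum_nonneg fun S _ => hw.1 S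

/-- If all homogeneous sets have at most `k` vertices then `|V| ≤ k * Zf`. -/
lemma card_le_mul_Zf (G : SimpleGraph V) (k : ℕ) (hk : 0 < k)
    (h : ∀ S, Homogeneous G S → S.card ≤ k) : (Fintype.card V : ℝ) / k ≤ Zf G := by
  classical
  apply le_csInf (exists_cover G)
  rintro s ⟨w, hw, rfl⟩
  rw [div_le_iff₀ (by exact_mod_cast hk)]
  have h1 : (Fintype.card V : ℝ) ≤ ∑ v : V, ∑ S with v ∈ S, w S := by
    have : ∑ v : V, (1:ℝ) ≤ ∑ v : V, ∑ S with v ∈ S, w S :=
      Finset.sum_le_sum fun v _ => hw.2.2 v
    simpa using this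
  refine le_trans h1 ?_
  have h2 : ∑ v : V, ∑ S with v ∈ S, w S = ∑ S : Finset V, (S.card : ℝ) * w S := by
    simp_rw [Finset.sum_filter]
    rw [Finset.sum_comm]
    apply Finset.sum_congr rfl
    intro S _
    rw [← Finset.sum_filter]
    simp
  rw [h2, Finset.sum_mul]
  apply Finset.sum_le_sum
  intro S _
  by_cases hS : Homogeneous G S
  · rw [mul_comm]
    exact mul_le_mul_of_nonneg_left (by exact_mod_cast h S hS) (hw.1 S)
  · rw [hw.2.1 S hS]; simp

end basic

section fam

variable {V : Type} [Fintype V] [DecidableEq V]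

/-- A weighted family of independent sets with coverage `c` and total weight `s`. -/
def HasFam (G : SimpleGraph V) (c : V → ℝ) (s : ℝ) : Prop :=
  ∃ (ι : Type) (_ : Fintype ι) (a : ι → ℝ) (B : ι → Finset V),
    (∀ i, 0 ≤ a i) ∧ (∀ i, G.IsIndepSet (B i : Set V)) ∧
    (∀ v, ∑ i, (if v ∈ B i then a i else 0) = c v) ∧ ∑ i, a i = s

lemma fam_step_aux (G : SimpleGraph V) (ι : Type) [Fintype ι] (a : ι → ℝ) (B : ι → Finset V)
    (ha : ∀ i, 0 ≤ a i) (hB : ∀ i, G.IsIndepSet (B i : Set V)) (x : V) (γ : ℝ) (hγ : 0 ≤ γ)
    (P : ι → Prop) [DecidablePred P] (hP : ∀ i, P i → G.IsIndepSet (insert x (B i) : Set V))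
    (hA : γ ≤ ∑ i, (if P i then a i else 0)) :
    HasFam G (Function.update (fun v => ∑ i, (if v ∈ B i then a i else 0)) x γ) (∑ i, a i) := by
  classical
  set A := ∑ i, (if P i then a i else 0) with hAdef
  have hA0 : 0 ≤ A := le_trans hγ hA
  set lam := γ / A with hlam
  have hl0 : 0 ≤ lam := div_nonneg hγ hA0
  have hl1 : lam ≤ 1 := div_le_one_of_le₀ hA hA0
  have hlA : lam * A = γ := by
    by_cases h : A = 0
    · have : γ = 0 := le_antisymm (h ▸ hA) hγ
      rw [h, this]; simp
    · rw [hlam]; field_simp
  have hindep : ∀ i, P i → G.IsIndepSet ((insert x (B i) : Finset V) : Set V) := by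
    intro i hi
    rw [Finset.coe_insert]
    exact hP i hi
  refine ⟨ι ⊕ ι, inferInstance,
    Sum.elim (fun i => if P i then lam * a i else 0) (fun i => a i - if P i then lam * a i else 0),
    Sum.elim (fun i => if P i then insert x (B i) else ∅) (fun i => (B i).erase x),
    ?_, ?_, ?_, ?_⟩
  · rintro (i | i)
    · simp only [Sum.elim_inl]
      split_ifs
      · exact mul_nonneg hl0 (ha i)
      · exact le_rfl
    · simp only [Sum.elim_inr]
      split_ifs
      · nlinarith [ha i]
      · simpa using ha i
  · rintro (i | i)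
    · simp only [Sum.elim_inl]
      split_ifs with h
      · exact hindep i h
      · simp [SimpleGraph.IsIndepSet]
    · simp only [Sum.elim_inr]
      refine (hB i).mono ?_
      intro y hy
      exact Finset.mem_of_mem_erase hy
  · intro v
    rw [Fintype.sum_sum_type]
    simp only [Sum.elim_inl, Sum.elim_inr]
    by_cases hv : v = x
    · subst hv
      rw [Function.update_self]
      have e : ∀ p q : ℝ, p = lam * A → q = 0 → p + q = γ := by
        intro p q hp hq; rw [hp, hq, hlA, add_zero]
      apply e
      · rw [hAdef, Finset.mul_sum]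
        apply Finset.sum_congr rfl
        intro i _
        by_cases h : P i <;> simp [h]
      · apply Finset.sum_eq_zero
        intro i _
        simp
    · rw [Function.update_of_ne hv]
      rw [← Finset.sum_add_distrib]
      apply Finset.sum_congr rfl
      intro i _
      by_cases h : P i
      · simp only [h, if_true, Finset.mem_insert, hv, false_or, Finset.mem_erase, ne_eq,
          not_false_eq_true, true_and]
        split_ifs <;> ring
      · simp [h, hv]
  · rw [Fintype.sum_sum_type]
    simp only [Sum.elim_inl, Sum.elim_inr]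
    rw [← Finset.sum_add_distrib]
    apply Finset.sum_congr rfl
    intro i _
    ring

lemma fam_trim (G : SimpleGraph V) (c : V → ℝ) (s : ℝ) (h : HasFam G c s) (x : V) (γ : ℝ)
    (hγ : 0 ≤ γ) (hc : γ ≤ c x) : HasFam G (Function.update c x γ) s := by
  classical
  obtain ⟨ι, _, a, B, ha, hB, hcov, htot⟩ := h
  have hc' : c = fun v => ∑ i, (if v ∈ B i then a i else 0) := funext fun v => (hcov v).symm
  rw [hc', ← htot]
  apply fam_step_aux G ι a B ha hB x γ hγ (fun i => x ∈ B i)
  · intro i hi
    rw [Set.insert_eq_of_mem (by exact_mod_cast hi)]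
    exact hB i
  · rw [hcov x]; exact hc

lemma fam_absorb (G : SimpleGraph V) (c : V → ℝ) (s : ℝ) (h : HasFam G c s) (x : V) (N : Finset V)
    (hN : ∀ u, G.Adj x u → u ∈ N) (hs : 1 + ∑ u ∈ N, c u ≤ s) :
    HasFam G (Function.update c x 1) s := by
  classical
  obtain ⟨ι, _, a, B, ha, hB, hcov, htot⟩ := h
  have hc' : c = fun v => ∑ i, (if v ∈ B i then a i else 0) := funext fun v => (hcov v).symm
  have key : 1 ≤ ∑ i, (if G.IsIndepSet (insert x (B i) : Set V) then a i else 0) := by
    have h1 : ∑ i, (if G.IsIndepSet (insert x (B i) : Set V) then 0 else a i)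
        ≤ ∑ u ∈ N, c u := by
      simp_rw [← hcov]
      rw [Finset.sum_comm]
      apply Finset.sum_le_sum
      intro i _
      split_ifs with hi
      · exact Finset.sum_nonneg fun u _ => by split_ifs; exacts [ha i, le_rfl]
      · have : ∃ u ∈ B i, G.Adj x u := by
          by_contra hcon
          push Not at hcon
          apply hi
          rw [SimpleGraph.IsIndepSet]
          rw [Set.pairwise_insert]
          refine ⟨hB i, ?_⟩
          intro b hb _
          exact ⟨hcon b (by exact_mod_cast hb), fun hh => hcon b (by exact_mod_cast hb) hh.symm⟩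
        obtain ⟨u, hu, hxu⟩ := this
        have := Finset.single_le_sum (f := fun u : V => if u ∈ B i then a i else 0)
          (s := N) (fun u _ => by split_ifs; exacts [ha i, le_rfl]) (hN u hxu)
        simpa [hu] using this
    have h2 : ∑ i, (if G.IsIndepSet (insert x (B i) : Set V) then a i else 0)
        + ∑ i, (if G.IsIndepSet (insert x (B i) : Set V) then 0 else a i) = s := by
      rw [← htot, ← Finset.sum_add_distrib]
      apply Finset.sum_congr rfl
      intro i _
      split_ifs <;> simp
    linarith
  rw [hc', ← htot]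
  exact fam_step_aux G ι a B ha hB x 1 zero_le_one
    (fun i => G.IsIndepSet (insert x (B i) : Set V)) (fun i hi => hi) key

lemma fam_trim_all (G : SimpleGraph V) (c : V → ℝ) (s : ℝ) (h : HasFam G c s)
    (hc0 : ∀ v, 0 ≤ c v) (M : Finset V) :
    HasFam G (fun v => if v ∈ M then min 1 (c v) else c v) s := by
  classical
  induction M using Finset.induction_on with
  | empty => simpa using h
  | insert x M hx ih =>
    have := fam_trim G _ s ih x (min 1 (c x)) (le_min zero_le_one (hc0 x)) (by simp [hx])
    convert this using 1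
    ext v
    by_cases hv : v = x
    · subst hv; simp
    · simp [hv]

lemma fam_absorb_all (G : SimpleGraph V) [DecidableRel G.Adj] (c : V → ℝ) (s : ℝ)
    (h : HasFam G c s) (hc1 : ∀ v, c v ≤ 1) (t : ℕ) (ht : (t:ℝ) + 1 ≤ s) (L : Finset V)
    (hL : ∀ x ∈ L, G.degree x ≤ t) :
    HasFam G (fun v => if v ∈ L then 1 else c v) s := by
  classical
  induction L using Finset.induction_on with
  | empty => simpa using h
  | insert x M hx ih =>
    have ih' := ih fun y hy => hL y (Finset.mem_insert_of_mem hy)
    have := fam_absorb G _ s ih' x (G.neighborFinset x) (by intro u hu; simpa using hu) (by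
      have h1 : ∑ u ∈ G.neighborFinset x, (if u ∈ M then (1:ℝ) else c u)
          ≤ ∑ u ∈ G.neighborFinset x, (1:ℝ) := by
        apply Finset.sum_le_sum
        intro u _
        split_ifs
        exacts [le_rfl, hc1 u]
      have h2 : ∑ u ∈ G.neighborFinset x, (1:ℝ) = G.degree x := by simp
      have h3 : (G.degree x : ℝ) ≤ t := by exact_mod_cast hL x (Finset.mem_insert_self x M)
      linarith)
    convert this using 1
    ext v
    by_cases hv : v = x
    · subst hv; simp
    · simp [hv]

end fam

end Pool.Agent.Helper868_zf
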