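import Mathlib
import Pool.Agent.Helper868_zf.A

set_option autoImplicit false

namespace Pool.Agent.Helper868_zf

open Finset

theorem Zf_le_gadget {V W : Type} [Fintype V] [DecidableEq V] [Fintype W] [DecidableEq W]
    (G G' : SimpleGraph V) [DecidableRel G.Adj] (Γ : SimpleGraph W) (L : Finset V) (t : ℕ)
    (hdeg : ∀ x ∈ L, G.degree x ≤ t) (ψ : W → V) (hψ : Function.Injective ψ)
    (hψL : ∀ b, ψ b ∈ L)
    (h1 : ∀ a b, a ∉ L → b ∉ L → (G'.Adj a b ↔ G.Adj a b))
    (h2 : ∀ a b, G'.Adj (ψ a) (ψ b) ↔ Γ.Adj a b)
    (h3 : ∀ a b, a ∉ L → ¬ G'.Adj a (ψ b))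
    (hΓ : (t : ℝ) + 1 ≤ Zf Γ) : Zf G ≤ Zf G' := by
  classical
  apply le_csInf (exists_cover G')
  rintro s ⟨w, hw, rfl⟩
  obtain ⟨hw0, hwH, hwc⟩ := hw
  set isI : Finset V → Prop := fun S => G'.IsIndepSet (S : Set V) with hisI
  set hb : Finset V → Prop := fun S => ∃ b, ψ b ∈ S with hhb
  set WI := ∑ S : Finset V, (if isI S then w S else 0) with hWI
  set W2 := ∑ S : Finset V, (if ¬ isI S ∧ hb S then w S else 0) with hW2
  set W1 := ∑ S : Finset V, (if ¬ isI S ∧ ¬ hb S then w S else 0) with hW1
  have htot : ∑ S : Finset V, w S = WI + W2 + W1 := by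
    rw [hWI, hW2, hW1, ← Finset.sum_add_distrib, ← Finset.sum_add_distrib]
    apply Finset.sum_congr rfl
    intro S _
    by_cases a1 : isI S <;> by_cases a2 : hb S <;> simp [a1, a2]
  have hW20 : 0 ≤ W2 := Finset.sum_nonneg fun S _ => by split_ifs; exacts [hw0 S, le_rfl]
  -- cover of Γ
  have hcovΓ : Zf Γ ≤ WI + W2 := by
    have := Zf_le_of_fam Γ (ι := Finset V) (fun S => if isI S ∨ hb S then w S else 0)
      (fun S => if Homogeneous G' S then Finset.univ.filter (fun b => ψ b ∈ S) else ∅)
      (fun S => by split_ifs; exacts [hw0 S, le_rfl])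
      (by
        intro S
        split_ifs with hS
        · rcases hS with hS | hS
          · left
            intro p hp q hq hpq
            have hp' : ψ p ∈ S := by simpa using hp
            have hq' : ψ q ∈ S := by simpa using hq
            exact (h2 p q).mp (hS (by exact_mod_cast hp') (by exact_mod_cast hq')
              (fun e => hpq (hψ e)))
          · right
            intro p hp q hq hpq
            have hp' : ψ p ∈ S := by simpa using hp
            have hq' : ψ q ∈ S := by simpa using hq
            intro hadj
            exact hS (by exact_mod_cast hp') (by exact_mod_cast hq')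
              (fun e => hpq (hψ e)) ((h2 p q).mpr hadj)
        · left
          simp)
      (by
        intro b
        refine le_trans (hwc (ψ b)) (le_of_eq ?_)
        rw [Finset.sum_filter]
        apply Finset.sum_congr rfl
        intro S _
        by_cases hS : Homogeneous G' S
        · by_cases hbS : ψ b ∈ S
          · have : hb S := ⟨b, hbS⟩
            simp [hS, hbS, this]
          · simp [hS, hbS]
        · simp [hS, hwH S hS])
    refine le_trans this (le_of_eq ?_)
    rw [hWI, hW2, ← Finset.sum_add_distrib]
    apply Finset.sum_congr rfl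
    intro S _
    by_cases a1 : isI S <;> by_cases a2 : hb S <;> simp [a1, a2]
  -- the base family
  set c : V → ℝ := fun v => ∑ S : Finset V, (if isI S ∧ v ∈ S ∧ v ∉ L then w S else 0) with hc
  have hc0 : ∀ v, 0 ≤ c v := fun v =>
    Finset.sum_nonneg fun S _ => by split_ifs; exacts [hw0 S, le_rfl]
  have hfam : HasFam G c (WI + W2) := by
    refine ⟨Finset V ⊕ Unit, inferInstance,
      Sum.elim (fun S => if isI S then w S else 0) (fun _ => W2),
      Sum.elim (fun S => if isI S then S.filter (fun v => v ∉ L) else ∅) (fun _ => ∅),
      ?_, ?_, ?_, ?_⟩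
    · rintro (S | _)
      · simp only [Sum.elim_inl]; split_ifs; exacts [hw0 S, le_rfl]
      · exact hW20
    · rintro (S | _)
      · simp only [Sum.elim_inl]
        split_ifs with hS
        · intro p hp q hq hpq
          simp only [Finset.coe_filter, Set.mem_ofPred_eq] at hp hq
          intro hadj
          exact hS (by exact_mod_cast hp.1) (by exact_mod_cast hq.1) hpq
            ((h1 p q hp.2 hq.2).mpr hadj)
        · simp [SimpleGraph.IsIndepSet]
      · simp [SimpleGraph.IsIndepSet]
    · intro v
      rw [Fintype.sum_sum_type]
      have e : ∀ p q : ℝ, p = c v → q = 0 → p + q = c v := by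
        intro p q hp hq; rw [hp, hq, add_zero]
      apply e
      · rw [hc]
        apply Finset.sum_congr rfl
        intro S _
        by_cases a1 : isI S <;> simp [a1]
      · simp
    · rw [Fintype.sum_sum_type]
      simp [hWI]
  have hfam2 := fam_trim_all G c (WI + W2) hfam hc0 Finset.univ
  have hfam3 := fam_absorb_all G _ (WI + W2) hfam2
    (fun v => by simp) t (by linarith) L hdeg
  obtain ⟨ι, _, a, B, ha, hB, hcov, hatot⟩ := hfam3
  rw [htot, ← hatot]
  have hfin := Zf_le_of_fam G (ι := ι ⊕ Finset V)
    (Sum.elim a (fun S => if ¬ isI S ∧ ¬ hb S then w S else 0))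
    (Sum.elim B (fun S => if Homogeneous G' S ∧ ¬ isI S then S.filter (fun v => v ∉ L) else ∅))
    (by
      rintro (i | S)
      · exact ha i
      · simp only [Sum.elim_inr]; split_ifs; exacts [hw0 S, le_rfl])
    (by
      rintro (i | S)
      · exact Or.inr (hB i)
      · simp only [Sum.elim_inr]
        split_ifs with hS
        · left
          rcases hS with ⟨hS | hS, hS'⟩
          · intro p hp q hq hpq
            simp only [Finset.coe_filter, Set.mem_ofPred_eq] at hp hq
            exact (h1 p q hp.2 hq.2).mp (hS (by exact_mod_cast hp.1) (by exact_mod_cast hq.1) hpq)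
          · exact absurd hS hS'
        · left
          simp)
    (by
      intro v
      rw [Fintype.sum_sum_type]
      have e1 : ∑ i, (if v ∈ Sum.elim B (fun S => if Homogeneous G' S ∧ ¬ isI S then
          S.filter (fun v => v ∉ L) else ∅) (Sum.inl i) then
          (Sum.elim a (fun S => if ¬ isI S ∧ ¬ hb S then w S else 0) : ι ⊕ Finset V → ℝ)
            (Sum.inl i) else 0) = if v ∈ L then 1 else min 1 (c v) := by
        have h := hcov v
        simp only [Finset.mem_univ, if_true] at h
        rw [← h]
        apply Finset.sum_congr rfl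
        intro i _
        by_cases hvi : v ∈ B i
        · simp [hvi]
        · simp [hvi]
      rw [e1]
      have e2 : 0 ≤ ∑ S : Finset V, (if v ∈ Sum.elim B (fun S => if Homogeneous G' S ∧ ¬ isI S then
          S.filter (fun v => v ∉ L) else ∅) (Sum.inr S) then
          (Sum.elim a (fun S => if ¬ isI S ∧ ¬ hb S then w S else 0) : ι ⊕ Finset V → ℝ)
            (Sum.inr S) else 0) := by
        apply Finset.sum_nonneg
        intro S _
        simp only [Sum.elim_inr]
        split_ifs <;> first | exact hw0 S | exact le_rfl
      by_cases hv : v ∈ L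
      · rw [if_pos hv]; linarith
      · rw [if_neg hv]
        have e3 : 1 ≤ c v + ∑ S : Finset V, (if v ∈ Sum.elim B (fun S => if Homogeneous G' S ∧
            ¬ isI S then S.filter (fun v => v ∉ L) else ∅) (Sum.inr S) then
            (Sum.elim a (fun S => if ¬ isI S ∧ ¬ hb S then w S else 0) : ι ⊕ Finset V → ℝ)
            (Sum.inr S) else 0) := by
          refine le_trans (hwc v) ?_
          rw [hc]
          rw [← Finset.sum_add_distrib, Finset.sum_filter]
          apply Finset.sum_le_sum
          intro S _
          simp only [Sum.elim_inr]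
          by_cases hvS : v ∈ S
          · by_cases hS : Homogeneous G' S
            · by_cases hI : isI S
              · simp [hvS, hI, hv]
              · have hnb : ¬ hb S := by
                  rintro ⟨b, hbS⟩
                  rcases hS with hS | hS
                  · refine h3 v b hv (hS (by exact_mod_cast hvS) (by exact_mod_cast hbS) ?_)
                    rintro rfl
                    exact hv (hψL b)
                  · exact hI hS
                simp [hvS, hS, hI, hnb, hv]
            · rw [hwH S hS]; simp
          · simp only [hvS, if_false, false_and, and_false, zero_add]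
            split_ifs <;> first | exact hw0 S | exact le_rfl
        rcases min_choice 1 (c v) with h | h
        · rw [h]; linarith
        · rw [h]; exact e3)
  refine le_trans hfin (le_of_eq ?_)
  rw [Fintype.sum_sum_type]
  simp [hW1]

end Pool.Agent.Helper868_zf
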