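import Mathlib
import Pool.Agent.Helper868_zf.B

set_option autoImplicit false

namespace Pool.Agent.Helper868_zf

open Finset

theorem exists_next {V : Type} [Fintype V] [DecidableEq V] (G : SimpleGraph V)
    [DecidableRel G.Adj] (L : Finset V) (t r : ℕ)
    (hdeg : ∀ x ∈ L, G.degree x ≤ t) (Γ : SimpleGraph (Fin r)) (hΓ : (t : ℝ) + 1 ≤ Zf Γ)
    (hr : 2 * r ≤ L.card) (hL : 0 < L.card) (hn : 4 * t + 5 ≤ Fintype.card V)
    (hsum : r * (r - 1) ≤ ∑ x ∈ L, G.degree x + 2) :
    ∃ G' : SimpleGraph V, G'.edgeSet.ncard = G.edgeSet.ncard + 1 ∧ Zf G ≤ Zf G' := by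
  classical
  obtain ⟨R, hRL, hRc⟩ := Finset.exists_subset_card_eq (show r ≤ L.card by omega)
  let e := R.equivFinOfCardEq hRc
  let ψ : Fin r → V := fun b => ((e.symm b : R) : V)
  have hψ : Function.Injective ψ := fun a b h => e.symm.injective (Subtype.ext h)
  have hψR : ∀ b, ψ b ∈ R := fun b => (e.symm b).2
  have hψL : ∀ b, ψ b ∈ L := fun b => hRL (hψR b)
  let G0 : SimpleGraph V :=
    { Adj := fun a b => (a ∉ L ∧ b ∉ L ∧ G.Adj a b) ∨ (∃ p q, ψ p = a ∧ ψ q = b ∧ Γ.Adj p q)
      symm := ⟨by
        rintro a b (⟨ha, hb, h⟩ | ⟨p, q, hp, hq, h⟩)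
        · exact Or.inl ⟨hb, ha, h.symm⟩
        · exact Or.inr ⟨q, p, hq, hp, h.symm⟩⟩
      loopless := ⟨by
        rintro a (⟨_, _, h⟩ | ⟨p, q, hp, hq, h⟩)
        · exact h.ne rfl
        · exact h.ne (hψ (hp.trans hq.symm))⟩ }
  let G1 : SimpleGraph V :=
    { Adj := fun a b => a ≠ b ∧ (G0.Adj a b ∨ a ∈ L \ R ∨ b ∈ L \ R)
      symm := ⟨by
        rintro a b ⟨hab, h⟩
        refine ⟨hab.symm, ?_⟩
        rcases h with h | h | h
        · exact Or.inl h.symm
        · exact Or.inr (Or.inr h)
        · exact Or.inr (Or.inl h)⟩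
      loopless := ⟨by
        rintro a ⟨h, _⟩
        exact h rfl⟩ }
  have hG0adj : ∀ a b, G0.Adj a b ↔
      ((a ∉ L ∧ b ∉ L ∧ G.Adj a b) ∨ (∃ p q, ψ p = a ∧ ψ q = b ∧ Γ.Adj p q)) := fun a b => Iff.rfl
  have hG1adj : ∀ a b, G1.Adj a b ↔ (a ≠ b ∧ (G0.Adj a b ∨ a ∈ L \ R ∨ b ∈ L \ R)) :=
    fun a b => Iff.rfl
  have h01 : G0 ≤ G1 := fun a b h => (hG1adj a b).mpr ⟨h.ne, Or.inl h⟩
  clear_value G0 G1
  -- neighbours outside L
  let dH : V → ℕ := fun v => (Finset.univ.filter fun u => u ∉ L ∧ G.Adj v u).card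
  let dL : V → ℕ := fun v => (Finset.univ.filter fun u => u ∈ L ∧ G.Adj v u).card
  set SH := ∑ v ∈ Lᶜ, dH v with hSH
  set X := ∑ v ∈ Lᶜ, dL v with hX
  set D := ∑ x ∈ L, G.degree x with hD
  have hdegG : ∀ v, G.degree v = dH v + dL v := by
    intro v
    rw [← SimpleGraph.card_neighborFinset_eq_degree]
    have : G.neighborFinset v = (Finset.univ.filter fun u => u ∉ L ∧ G.Adj v u) ∪
        (Finset.univ.filter fun u => u ∈ L ∧ G.Adj v u) := by
      ext u
      by_cases hu : u ∈ L <;> simp [hu]
    rw [this, Finset.card_union_of_disjoint]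
    rw [Finset.disjoint_filter]
    intro u _ h1 h2
    exact h1.1 h2.1
  have hXD : X ≤ D := by
    have : X = ∑ x ∈ L, (Finset.univ.filter fun v => v ∈ Lᶜ ∧ G.Adj v x).card := by
      rw [hX]
      have e1 : ∀ v, dL v = ∑ u ∈ L, if G.Adj v u then 1 else 0 := by
        intro v
        change (Finset.univ.filter fun u => u ∈ L ∧ G.Adj v u).card = _
        rw [← Finset.sum_filter, Finset.sum_const, smul_eq_mul, mul_one]
        congr 1
        ext u; simp
      have e2 : ∀ x, (Finset.univ.filter fun v => v ∈ Lᶜ ∧ G.Adj v x).card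
          = ∑ v ∈ Lᶜ, if G.Adj v x then 1 else 0 := by
        intro v
        rw [← Finset.sum_filter, Finset.sum_const, smul_eq_mul, mul_one]
        congr 1
        ext u; simp
      rw [Finset.sum_congr rfl fun v _ => e1 v, Finset.sum_congr rfl fun v _ => e2 v]
      exact Finset.sum_comm
    rw [this, hD]
    apply Finset.sum_le_sum
    intro x _
    rw [← SimpleGraph.card_neighborFinset_eq_degree]
    apply Finset.card_le_card
    intro v hv
    simp only [Finset.mem_filter] at hv
    rw [SimpleGraph.mem_neighborFinset]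
    exact hv.2.2.symm
  have hDt : D ≤ t * L.card := by
    rw [hD]
    calc ∑ x ∈ L, G.degree x ≤ ∑ _x ∈ L, t := Finset.sum_le_sum hdeg
      _ = t * L.card := by simp [mul_comm]
  have hm : 2 * G.edgeFinset.card = SH + X + D := by
    rw [← SimpleGraph.sum_degrees_eq_twice_card_edges, hSH, hX, hD, ← Finset.sum_add_distrib,
      ← Finset.sum_compl_add_sum L]
    congr 1
    exact Finset.sum_congr rfl fun v _ => hdegG v
  -- degrees of G0
  have hd0 : 2 * G0.edgeFinset.card ≤ SH + r * (r - 1) := by
    rw [← SimpleGraph.sum_degrees_eq_twice_card_edges, ← Finset.sum_compl_add_sum L]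
    apply Nat.add_le_add
    · rw [hSH]
      apply Finset.sum_le_sum
      intro v hv
      rw [Finset.mem_compl] at hv
      rw [← SimpleGraph.card_neighborFinset_eq_degree]
      apply Finset.card_le_card
      intro u hu
      rw [SimpleGraph.mem_neighborFinset, hG0adj] at hu
      rcases hu with ⟨_, hu, h⟩ | ⟨p, q, hp, hq, h⟩
      · simp [hu, h]
      · exact absurd (hp ▸ hψL p) hv
    · rw [← Finset.sum_sdiff hRL]
      have z1 : ∑ x ∈ L \ R, G0.degree x = 0 := by
        apply Finset.sum_eq_zero
        intro x hx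
        rw [Finset.mem_sdiff] at hx
        rw [← SimpleGraph.card_neighborFinset_eq_degree, Finset.card_eq_zero]
        ext u
        simp only [SimpleGraph.mem_neighborFinset, Finset.notMem_empty, iff_false, hG0adj]
        rintro (⟨h, _⟩ | ⟨p, q, hp, hq, h⟩)
        · exact h hx.1
        · exact hx.2 (hp ▸ hψR p)
      have z2 : ∑ x ∈ R, G0.degree x ≤ r * (r - 1) := by
        calc ∑ x ∈ R, G0.degree x ≤ ∑ _x ∈ R, (r - 1) := by
              apply Finset.sum_le_sum
              intro x hx
              rw [← SimpleGraph.card_neighborFinset_eq_degree]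
              have : G0.neighborFinset x ⊆ R.erase x := by
                intro u hu
                have hne : x ≠ u := ((SimpleGraph.mem_neighborFinset _ _ _).mp hu).ne
                rw [SimpleGraph.mem_neighborFinset, hG0adj] at hu
                rcases hu with ⟨h, _⟩ | ⟨p, q, hp, hq, h⟩
                · exact absurd (hRL hx) h
                · rw [Finset.mem_erase]
                  exact ⟨hne.symm, hq ▸ hψR q⟩
              calc _ ≤ _ := Finset.card_le_card this
                _ = r - 1 := by rw [Finset.card_erase_of_mem hx, hRc]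
          _ = r * (r - 1) := by simp [hRc]
      omega
  -- degrees of G1
  have hd1 : SH + (L.card - r) * (Fintype.card V - 1) ≤ 2 * G1.edgeFinset.card := by
    rw [← SimpleGraph.sum_degrees_eq_twice_card_edges, ← Finset.sum_compl_add_sum L]
    apply Nat.add_le_add
    · rw [hSH]
      apply Finset.sum_le_sum
      intro v hv
      rw [Finset.mem_compl] at hv
      rw [← SimpleGraph.card_neighborFinset_eq_degree]
      apply Finset.card_le_card
      intro u hu
      simp only [Finset.mem_filter] at hu
      rw [SimpleGraph.mem_neighborFinset]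
      exact h01 ((hG0adj v u).mpr (Or.inl ⟨hv, hu.2.1, hu.2.2⟩))
    · rw [← Finset.sum_sdiff hRL]
      have : ∑ x ∈ L \ R, G1.degree x = (L.card - r) * (Fintype.card V - 1) := by
        have : ∀ x ∈ L \ R, G1.degree x = Fintype.card V - 1 := by
          intro x hx
          rw [← SimpleGraph.card_neighborFinset_eq_degree]
          have : G1.neighborFinset x = Finset.univ.erase x := by
            ext u
            simp only [SimpleGraph.mem_neighborFinset, hG1adj, Finset.mem_erase,
              Finset.mem_univ, and_true]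
            constructor
            · rintro ⟨h, _⟩; exact h.symm
            · intro h; exact ⟨h.symm, Or.inr (Or.inl hx)⟩
          rw [this, Finset.card_erase_of_mem (Finset.mem_univ x), Finset.card_univ]
        rw [Finset.sum_congr rfl this, Finset.sum_const, smul_eq_mul,
          Finset.card_sdiff_of_subset hRL, hRc]
      omega
  have hc0 : G0.edgeFinset.card ≤ G.edgeFinset.card + 1 := by omega
  have hc1 : G.edgeFinset.card + 1 ≤ G1.edgeFinset.card := by
    have k1 : L.card * (2 * t + 2) ≤ (L.card - r) * (Fintype.card V - 1) := by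
      calc L.card * (2 * t + 2) ≤ (2 * (L.card - r)) * (2 * t + 2) :=
            Nat.mul_le_mul_right _ (by omega)
        _ = (L.card - r) * (4 * t + 4) := by ring
        _ ≤ _ := Nat.mul_le_mul_left _ (by omega)
    have k2 : L.card * (2 * t + 2) = 2 * (t * L.card) + 2 * L.card := by ring
    omega
  obtain ⟨U, hU0, hU1, hUc⟩ := Finset.exists_subsuperset_card_eq
    (s := G0.edgeFinset) (t := G1.edgeFinset) (SimpleGraph.edgeFinset_mono h01) hc0 hc1
  let G' : SimpleGraph V := SimpleGraph.fromEdgeSet (U : Set (Sym2 V))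
  have hle0 : ∀ a b, G0.Adj a b → G'.Adj a b := by
    intro a b h
    rw [SimpleGraph.fromEdgeSet_adj]
    refine ⟨?_, h.ne⟩
    have : s(a, b) ∈ G0.edgeFinset := by
      rw [SimpleGraph.mem_edgeFinset, SimpleGraph.mem_edgeSet]; exact h
    exact_mod_cast hU0 this
  have hle1 : ∀ a b, G'.Adj a b → G1.Adj a b := by
    intro a b h
    rw [SimpleGraph.fromEdgeSet_adj] at h
    have : s(a, b) ∈ G1.edgeFinset := hU1 (by exact_mod_cast h.1)
    rwa [SimpleGraph.mem_edgeFinset, SimpleGraph.mem_edgeSet] at this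
  have hedge : G'.edgeSet = (U : Set (Sym2 V)) := by
    rw [SimpleGraph.edgeSet_fromEdgeSet]
    ext s
    constructor
    · intro h; exact h.1
    · intro h
      refine ⟨h, ?_⟩
      have : s ∈ G1.edgeSet := by
        have := hU1 (by exact_mod_cast h)
        rwa [SimpleGraph.mem_edgeFinset] at this
      exact SimpleGraph.not_isDiag_of_mem_edgeSet G1 this
  refine ⟨G', ?_, ?_⟩
  · rw [hedge, Set.ncard_coe_finset, hUc, ← SimpleGraph.coe_edgeFinset G, Set.ncard_coe_finset]
  · apply Zf_le_gadget G G' Γ L t hdeg ψ hψ hψL ?_ ?_ ?_ hΓ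
    · intro a b ha hb
      constructor
      · intro h
        have := (hG1adj a b).mp (hle1 a b h)
        rcases this.2 with h | h | h
        · rcases (hG0adj a b).mp h with h | ⟨p, q, hp, hq, h⟩
          · exact h.2.2
          · exact absurd (hp ▸ hψL p) ha
        · exact absurd (Finset.mem_sdiff.mp h).1 ha
        · exact absurd (Finset.mem_sdiff.mp h).1 hb
      · intro h
        exact hle0 a b ((hG0adj a b).mpr (Or.inl ⟨ha, hb, h⟩))
    · intro a b
      constructor
      · intro h
        have := (hG1adj _ _).mp (hle1 _ _ h)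
        rcases this.2 with h | h | h
        · rcases (hG0adj _ _).mp h with h | ⟨p, q, hp, hq, h⟩
          · exact absurd (hψL a) h.1
          · rwa [← hψ hp, ← hψ hq]
        · exact absurd (hψR a) (Finset.mem_sdiff.mp h).2
        · exact absurd (hψR b) (Finset.mem_sdiff.mp h).2
      · intro h
        exact hle0 _ _ ((hG0adj _ _).mpr (Or.inr ⟨a, b, rfl, rfl, h⟩))
    · intro a b ha h
      have := (hG1adj _ _).mp (hle1 _ _ h)
      rcases this.2 with h | h | h
      · rcases (hG0adj _ _).mp h with h | ⟨p, q, hp, hq, h⟩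
        · exact absurd (hψL b) h.2.1
        · exact absurd (hp ▸ hψL p) ha
      · exact absurd (Finset.mem_sdiff.mp h).1 ha
      · exact absurd (hψR b) (Finset.mem_sdiff.mp h).2

end Pool.Agent.Helper868_zf
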