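import Mathlib
import Pool.Agent.Helper868_zf.C

set_option autoImplicit false

namespace Pool.Agent.Helper868_zf

open Finset

theorem exists_next_of_gadgets {V : Type} [Fintype V] [DecidableEq V] (G : SimpleGraph V)
    [DecidableRel G.Adj] (lam : ℕ) (hlam : 1 ≤ lam) (hn : 5 ≤ Fintype.card V)
    (hgad : ∀ t : ℕ, 4 * t + 5 ≤ Fintype.card V →
      ∃ Γ : SimpleGraph (Fin (lam * (t + 1))), (t : ℝ) + 1 ≤ Zf Γ)
    (hm : 128 * lam ^ 2 * G.edgeFinset.card < Fintype.card V ^ 2) :
    ∃ G' : SimpleGraph V, G'.edgeSet.ncard = G.edgeSet.ncard + 1 ∧ Zf G ≤ Zf G' := by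
  classical
  by_contra hno
  set n := Fintype.card V with hnn
  set m := G.edgeFinset.card with hmm
  let Lt : ℕ → Finset V := fun t => Finset.univ.filter fun x => G.degree x ≤ t
  have hsum : ∑ x, G.degree x = 2 * m := SimpleGraph.sum_degrees_eq_twice_card_edges G
  -- general count
  have hcount : ∀ (A : Finset V) (k : ℕ), k * (A.filter fun x => k ≤ G.degree x).card
      ≤ ∑ x ∈ A, G.degree x := by
    intro A k
    calc k * (A.filter fun x => k ≤ G.degree x).card
        = ∑ _x ∈ A.filter fun x => k ≤ G.degree x, k := by simp [mul_comm]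
      _ ≤ ∑ x ∈ A.filter fun x => k ≤ G.degree x, G.degree x := by
          apply Finset.sum_le_sum
          intro x hx
          exact (Finset.mem_filter.mp hx).2
      _ ≤ ∑ x ∈ A, G.degree x :=
          Finset.sum_le_sum_of_subset (Finset.filter_subset _ _)
  have h0 : (Lt 0).card ≤ 1 := by
    by_contra hc
    push Not at hc
    apply hno
    refine exists_next G (Lt 0) 0 1 (by intro x hx; exact (Finset.mem_filter.mp hx).2) ⊥ ?_
      (by omega) (by omega) (by omega) (by simp)
    have := card_le_mul_Zf (⊥ : SimpleGraph (Fin 1)) 1 one_pos (by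
      intro S _
      calc S.card ≤ Fintype.card (Fin 1) := Finset.card_le_univ S
        _ = 1 := by simp)
    simpa using this
  have hN : ∀ t : ℕ, 4 * t + 5 ≤ n → (Lt t).card ≤ 8 * lam ^ 2 * (t + 1) := by
    intro t
    induction t using Nat.strong_induction_on with
    | _ t ih =>
      intro ht
      rcases Nat.eq_zero_or_pos t with rfl | htpos
      · have : 1 ≤ lam ^ 2 := Nat.one_le_pow _ _ hlam
        nlinarith
      · by_cases hA : 2 * (lam * (t + 1)) ≤ (Lt t).card
        · obtain ⟨Γ, hΓ⟩ := hgad t ht
          have hB : ¬ (lam * (t + 1) * (lam * (t + 1) - 1) ≤ ∑ x ∈ Lt t, G.degree x + 2) := by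
            intro hB
            apply hno
            refine exists_next G (Lt t) t (lam * (t + 1))
              (by intro x hx; exact (Finset.mem_filter.mp hx).2) Γ hΓ hA ?_ ht hB
            have : 0 < lam * (t + 1) := by positivity
            omega
          push Not at hB
          have hB' : ∑ x ∈ Lt t, G.degree x ≤ (lam * (t + 1)) ^ 2 := by
            have : lam * (t + 1) * (lam * (t + 1) - 1) ≤ (lam * (t + 1)) ^ 2 := by
              rw [sq]; exact Nat.mul_le_mul_left _ (Nat.sub_le _ _)
            omega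
          have ih' := ih (t / 2) (Nat.div_lt_self htpos (by norm_num)) (by omega)
          have hc := hcount (Lt t) (t / 2 + 1)
          have hsub : (Lt t).card ≤ (Lt (t / 2)).card
              + ((Lt t).filter fun x => t / 2 + 1 ≤ G.degree x).card := by
            refine le_trans (Finset.card_le_card ?_) (Finset.card_union_le _ _)
            intro x hx
            rw [Finset.mem_union]
            by_cases hd : G.degree x ≤ t / 2
            · left; simp [Lt, hd]
            · right; rw [Finset.mem_filter]; exact ⟨hx, by omega⟩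
          set Q := ((Lt t).filter fun x => t / 2 + 1 ≤ G.degree x).card with hQ
          have hQ' : Q ≤ 2 * lam ^ 2 * (t + 1) := by
            have h1 : (t + 1) * Q ≤ (t + 1) * (2 * lam ^ 2 * (t + 1)) := by
              calc (t + 1) * Q ≤ (2 * (t / 2 + 1)) * Q := Nat.mul_le_mul_right _ (by omega)
                _ = 2 * ((t / 2 + 1) * Q) := by ring
                _ ≤ 2 * (lam * (t + 1)) ^ 2 := Nat.mul_le_mul_left _ (le_trans hc hB')
                _ = _ := by ring
            exact Nat.le_of_mul_le_mul_left h1 (by omega)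
          have h3 : 8 * lam ^ 2 * (t / 2 + 1) ≤ 6 * lam ^ 2 * (t + 1) := by
            calc 8 * lam ^ 2 * (t / 2 + 1) = 2 * lam ^ 2 * (4 * (t / 2 + 1)) := by ring
              _ ≤ 2 * lam ^ 2 * (3 * (t + 1)) := Nat.mul_le_mul_left _ (by omega)
              _ = _ := by ring
          have h4 : 8 * lam ^ 2 * (t + 1) = 6 * lam ^ 2 * (t + 1) + 2 * lam ^ 2 * (t + 1) := by
            ring
          omega
        · push Not at hA
          have : lam ≤ lam ^ 2 := by nlinarith
          nlinarith
  set T := n / (16 * lam ^ 2) with hT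
  have hl2 : 1 ≤ lam ^ 2 := Nat.one_le_pow _ _ hlam
  have hTn : 16 * lam ^ 2 * T ≤ n := Nat.mul_div_le n (16 * lam ^ 2)
  have hTn' : n < 16 * lam ^ 2 * (T + 1) := by
    have := Nat.lt_mul_div_succ n (show 0 < 16 * lam ^ 2 by positivity)
    simpa [hT] using this
  have hcard : ∀ k : ℕ, n ≤ (Lt k).card + (Finset.univ.filter fun x => k + 1 ≤ G.degree x).card := by
    intro k
    rw [hnn, ← Finset.card_univ]
    refine le_trans (Finset.card_le_card ?_) (Finset.card_union_le _ _)
    intro x _
    rw [Finset.mem_union]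
    by_cases hd : G.degree x ≤ k
    · left; simp [Lt, hd]
    · right; rw [Finset.mem_filter]; exact ⟨Finset.mem_univ x, by omega⟩
  rcases Nat.eq_zero_or_pos T with hT0 | hTpos
  · have hlt : n < 16 * lam ^ 2 := by rw [hT0] at hTn'; simpa using hTn'
    have h1 : 8 * m < n := by
      by_contra hcon
      push Not at hcon
      have : n * n ≤ 128 * lam ^ 2 * m := by
        calc n * n ≤ (16 * lam ^ 2) * (8 * m) := Nat.mul_le_mul hlt.le hcon
          _ = _ := by ring
      have hm' : 128 * lam ^ 2 * m < n * n := lt_of_lt_of_eq hm (sq n)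
      exact absurd hm' (not_lt.mpr this)
    have h2 := hcard 0
    have h3 := hcount Finset.univ 1
    rw [hsum] at h3
    simp only [zero_add, one_mul] at h2 h3
    omega
  · have hle : 4 * (T - 1) + 5 ≤ n := by
      have : 16 * T ≤ 16 * lam ^ 2 * T := by nlinarith
      omega
    have h1 := hN (T - 1) hle
    rw [Nat.sub_add_cancel hTpos] at h1
    have h2 := hcard (T - 1)
    rw [Nat.sub_add_cancel hTpos] at h2
    have h3 := hcount Finset.univ T
    rw [hsum] at h3
    set Q := (Finset.univ.filter fun x => T ≤ G.degree x).card with hQ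
    have h4 : n ≤ 2 * Q := by
      have : 16 * lam ^ 2 * T = 2 * (8 * lam ^ 2 * T) := by ring
      omega
    have h5 : T * n ≤ 4 * m := by
      calc T * n ≤ T * (2 * Q) := Nat.mul_le_mul_left _ h4
        _ = 2 * (T * Q) := by ring
        _ ≤ 2 * (2 * m) := Nat.mul_le_mul_left _ h3
        _ = 4 * m := by ring
    have h6 : n ≤ 32 * lam ^ 2 * T := by
      calc n ≤ 16 * lam ^ 2 * (T + 1) := hTn'.le
        _ ≤ 16 * lam ^ 2 * (2 * T) := Nat.mul_le_mul_left _ (by omega)
        _ = _ := by ring
    have h7 : n * n ≤ 128 * lam ^ 2 * m := by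
      calc n * n ≤ (32 * lam ^ 2 * T) * n := Nat.mul_le_mul_right _ h6
        _ = 32 * lam ^ 2 * (T * n) := by ring
        _ ≤ 32 * lam ^ 2 * (4 * m) := Nat.mul_le_mul_left _ h5
        _ = _ := by ring
    have hm' : 128 * lam ^ 2 * m < n * n := lt_of_lt_of_eq hm (sq n)
    exact absurd hm' (not_lt.mpr h7)

end Pool.Agent.Helper868_zf
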