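import Mathlib
import Pool.Agent.Helper868_zf.A

set_option autoImplicit false

namespace Pool.Agent.Helper868_zf

open Finset

/-- Erdős's lower bound for diagonal Ramsey numbers, in a weak form. -/
theorem ramsey_graph (j r : ℕ) (hr : r ≤ 2 ^ j) :
    ∃ Γ : SimpleGraph (Fin r), ∀ S, Homogeneous Γ S → S.card ≤ 2 * j + 2 := by
  classical
  by_contra hno
  push Not at hno
  set k := 2 * j + 3 with hk
  let E : Finset (Fin r) → Finset (Sym2 (Fin r)) := fun S => S.offDiag.image Sym2.mk.uncurry
  have hE : ∀ S, S.card = k → (E S).card = k.choose 2 := by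
    intro S hS
    rw [← hS]
    exact Sym2.card_image_offDiag S
  let N := Fintype.card (Sym2 (Fin r))
  let bad : Finset (Fin r) → Bool → Finset (Sym2 (Fin r) → Bool) := fun S b =>
    Finset.univ.filter fun f => ∀ e ∈ E S, f e = b
  have hbad : ∀ S b, S.card = k → (bad S b).card * 2 ^ (k.choose 2) = 2 ^ N := by
    intro S b hS
    have h1 : bad S b = Fintype.piFinset (fun e => if e ∈ E S then {b} else Finset.univ) := by
      ext f
      simp only [bad, Finset.mem_filter, Finset.mem_univ, true_and, Fintype.mem_piFinset]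
      constructor
      · intro h e
        by_cases he : e ∈ E S
        · simp [he, h e he]
        · simp [he]
      · intro h e he
        have := h e
        simpa [he] using this
    rw [h1, Fintype.card_piFinset, ← hE S hS]
    have h2 : (2:ℕ) ^ (E S).card = ∏ e : Sym2 (Fin r), if e ∈ E S then 2 else 1 := by
      rw [Finset.prod_ite_mem, Finset.univ_inter, Finset.prod_const]
    rw [h2, ← Finset.prod_mul_distrib]
    have h3 : (2:ℕ) ^ N = ∏ _e : Sym2 (Fin r), 2 := by
      rw [Finset.prod_const, Finset.card_univ]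
    rw [h3]
    apply Finset.prod_congr rfl
    intro e _
    by_cases he : e ∈ E S <;> simp [he]
  -- every function is bad
  have hcov : (Finset.univ : Finset (Sym2 (Fin r) → Bool)) ⊆
      ((Finset.univ : Finset (Fin r)).powersetCard k ×ˢ (Finset.univ : Finset Bool)).biUnion
        (fun p => bad p.1 p.2) := by
    intro f _
    obtain ⟨S, hS, hSc⟩ := hno (SimpleGraph.fromEdgeSet {e | f e = true})
    obtain ⟨S', hS'S, hS'c⟩ := Finset.exists_subset_card_eq (show k ≤ S.card by omega)
    rw [Finset.mem_biUnion]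
    rcases hS with hS | hS
    · refine ⟨(S', true), ?_, ?_⟩
      · simp [hS'c]
      · simp only [bad, Finset.mem_filter, Finset.mem_univ, true_and]
        intro e he
        simp only [E, Finset.mem_image, Finset.mem_offDiag, Prod.exists] at he
        obtain ⟨a, b, ⟨ha, hb, hab⟩, rfl⟩ := he
        have := hS (by exact_mod_cast hS'S ha) (by exact_mod_cast hS'S hb) hab
        rw [SimpleGraph.fromEdgeSet_adj] at this
        exact this.1
    · refine ⟨(S', false), ?_, ?_⟩
      · simp [hS'c]
      · simp only [bad, Finset.mem_filter, Finset.mem_univ, true_and]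
        intro e he
        simp only [E, Finset.mem_image, Finset.mem_offDiag, Prod.exists] at he
        obtain ⟨a, b, ⟨ha, hb, hab⟩, rfl⟩ := he
        have this : ¬ (SimpleGraph.fromEdgeSet {e | f e = true}).Adj a b := hS (by exact_mod_cast hS'S ha) (by exact_mod_cast hS'S hb) hab
        rw [SimpleGraph.fromEdgeSet_adj] at this
        by_contra hf
        apply this
        refine ⟨?_, hab⟩
        change f s(a, b) = true
        simpa using hf
  have hcard := le_trans (Finset.card_le_card hcov) Finset.card_biUnion_le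
  have h1 : (Finset.univ : Finset (Sym2 (Fin r) → Bool)).card = 2 ^ N := by
    rw [Finset.card_univ, Fintype.card_fun, Fintype.card_bool]
  rw [h1] at hcard
  have h2 : 2 ^ N * 2 ^ (k.choose 2) ≤ (2 * r.choose k) * 2 ^ N := by
    calc 2 ^ N * 2 ^ (k.choose 2)
        ≤ (∑ p ∈ ((Finset.univ : Finset (Fin r)).powersetCard k ×ˢ
            (Finset.univ : Finset Bool)), (bad p.1 p.2).card) * 2 ^ (k.choose 2) :=
          Nat.mul_le_mul_right _ hcard
      _ = ∑ p ∈ ((Finset.univ : Finset (Fin r)).powersetCard k ×ˢ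
            (Finset.univ : Finset Bool)), 2 ^ N := by
          rw [Finset.sum_mul]
          apply Finset.sum_congr rfl
          intro p hp
          rw [Finset.mem_product, Finset.mem_powersetCard] at hp
          exact hbad p.1 p.2 hp.1.2
      _ = (2 * r.choose k) * 2 ^ N := by
          rw [Finset.sum_const, Finset.card_product, Finset.card_powersetCard]
          simp [mul_comm]
  have h3 : 2 ^ (k.choose 2) ≤ 2 * r.choose k := by
    have : 2 ^ N * 2 ^ (k.choose 2) ≤ 2 ^ N * (2 * r.choose k) := by
      rw [mul_comm (2 ^ N) (2 * r.choose k)]; exact h2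
    exact Nat.le_of_mul_le_mul_left this (by positivity)
  have h4 : r.choose k ≤ (2 ^ j) ^ k :=
    le_trans (Nat.choose_le_pow r k) (Nat.pow_le_pow_left hr k)
  have h5 : k.choose 2 = j * k + k := by
    rw [Nat.choose_two_right, hk]
    have : (2 * j + 3) * (2 * j + 3 - 1) = 2 * (j * (2 * j + 3) + (2 * j + 3)) := by
      have : 2 * j + 3 - 1 = 2 * j + 2 := by omega
      rw [this]; ring
    rw [this, Nat.mul_div_cancel_left _ (by norm_num)]
  have h6 : 2 ^ (j * k + k) ≤ 2 ^ (j * k + 1) := by
    calc 2 ^ (j * k + k) ≤ 2 * r.choose k := by rw [← h5]; exact h3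
      _ ≤ 2 * (2 ^ j) ^ k := Nat.mul_le_mul_left _ h4
      _ = 2 ^ (j * k + 1) := by rw [← pow_mul, pow_succ]; ring
  have h7 := (Nat.pow_le_pow_iff_right (by norm_num : 1 < 2)).mp h6
  omega

theorem gadget (ell t : ℕ) (ht : t + 1 ≤ 2 ^ ell) :
    ∃ Γ : SimpleGraph (Fin ((4 * ell + 10) * (t + 1))), (t : ℝ) + 1 ≤ Zf Γ := by
  have hlt : ∀ x : ℕ, 4 * x + 10 ≤ 2 ^ (x + 4) := by
    intro x
    induction x with
    | zero => norm_num
    | succ x ih => rw [show x + 1 + 4 = (x + 4) + 1 by ring, pow_succ]; omega
  obtain ⟨Γ, hΓ⟩ := ramsey_graph (2 * ell + 4) ((4 * ell + 10) * (t + 1)) (by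
    calc (4 * ell + 10) * (t + 1) ≤ 2 ^ (ell + 4) * 2 ^ ell := Nat.mul_le_mul (hlt ell) ht
      _ = 2 ^ (2 * ell + 4) := by rw [← pow_add]; congr 1; ring)
  refine ⟨Γ, ?_⟩
  have := card_le_mul_Zf Γ (4 * ell + 10) (by positivity) (by
    intro S hS
    have := hΓ S hS
    omega)
  refine le_trans (le_of_eq ?_) this
  rw [Fintype.card_fin]
  push_cast
  field_simp

end Pool.Agent.Helper868_zf
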