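import Mathlib
import Pool.Agent.Helper868_zf.D
import Pool.Agent.Helper868_zf.E

set_option autoImplicit false

namespace Pool.Agent.Helper868_zf

open Finset

lemma one_le_Zf {V : Type} [Fintype V] [DecidableEq V] [Nonempty V] (G : SimpleGraph V) :
    1 ≤ Zf G := by
  classical
  apply le_csInf (exists_cover G)
  rintro s ⟨w, hw, rfl⟩
  obtain ⟨v⟩ := (inferInstance : Nonempty V)
  refine le_trans (hw.2.2 v) ?_
  exact Finset.sum_le_sum_of_subset_of_nonneg (Finset.filter_subset _ _)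
    (fun S _ _ => hw.1 S)

lemma Zf_le_one_of_no_edge {V : Type} [Fintype V] [DecidableEq V] (G : SimpleGraph V)
    (h : ∀ a b, ¬ G.Adj a b) : Zf G ≤ 1 := by
  have := Zf_le_of_fam G (ι := Unit) (fun _ => 1) (fun _ => Finset.univ) (fun _ => zero_le_one)
    (fun _ => Or.inr (fun a _ b _ _ => h a b)) (by intro v; simp)
  simpa using this

/-- The step on the level of single graphs. -/
theorem exists_next_graph (n : ℕ) (hn : 5 ≤ n) (G : SimpleGraph (Fin n))
    (hm : 128 * (4 * (Nat.log 2 n + 1) + 10) ^ 2 * G.edgeSet.ncard < n ^ 2) :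
    ∃ G' : SimpleGraph (Fin n), G'.edgeSet.ncard = G.edgeSet.ncard + 1 ∧ Zf G ≤ Zf G' := by
  classical
  have hc : G.edgeSet.ncard = G.edgeFinset.card := by
    rw [← SimpleGraph.coe_edgeFinset G, Set.ncard_coe_finset]
  apply exists_next_of_gadgets G (4 * (Nat.log 2 n + 1) + 10) (by omega)
    (by simpa using hn)
  · intro t ht
    rw [Fintype.card_fin] at ht
    apply gadget
    have : n < 2 ^ (Nat.log 2 n + 1) := Nat.lt_pow_succ_log_self (by norm_num) n
    omega
  · rw [Fintype.card_fin, ← hc]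
    exact hm

theorem ZfMax_le_of (n m m' : ℕ)
    (h : ∀ G : SimpleGraph (Fin n), G.edgeSet.ncard = m →
      ∃ G' : SimpleGraph (Fin n), G'.edgeSet.ncard = m' ∧ Zf G ≤ Zf G') :
    ZfMax n m ≤ ZfMax n m' := by
  apply Real.sSup_le
  · rintro z ⟨G, hG, rfl⟩
    obtain ⟨G', hG', hle⟩ := h G hG
    refine le_trans hle (le_csSup ?_ ⟨G', hG', rfl⟩)
    apply Set.Finite.bddAbove
    apply Set.Finite.subset (Set.finite_range fun G : SimpleGraph (Fin n) => Zf G)
    rintro z ⟨G, _, rfl⟩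
    exact ⟨G, rfl⟩
  · apply Real.sSup_nonneg
    rintro z ⟨G, _, rfl⟩
    exact Zf_nonneg G

theorem ZfMax_zero_le (n : ℕ) (hn : 2 ≤ n) : ZfMax n 0 ≤ ZfMax n 1 := by
  classical
  apply ZfMax_le_of
  intro G hG
  have hne : (⟨0, by omega⟩ : Fin n) ≠ ⟨1, by omega⟩ := by
    intro h; simp [Fin.ext_iff] at h
  refine ⟨SimpleGraph.fromEdgeSet {s((⟨0, by omega⟩ : Fin n), (⟨1, by omega⟩ : Fin n))}, ?_, ?_⟩
  · rw [SimpleGraph.edgeSet_fromEdgeSet]
    have : ({s((⟨0, by omega⟩ : Fin n), (⟨1, by omega⟩ : Fin n))} : Set (Sym2 (Fin n))) \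
        {e | e.IsDiag} = {s((⟨0, by omega⟩ : Fin n), (⟨1, by omega⟩ : Fin n))} := by
      ext e
      constructor
      · intro h; exact h.1
      · intro h
        refine ⟨h, ?_⟩
        rw [Set.mem_singleton_iff] at h
        rw [h]
        intro hd
        exact hne (Sym2.mk_isDiag_iff.mp hd)
    rw [show Sym2.diagSet = {e : Sym2 (Fin n) | e.IsDiag} from by ext e; simp]
    rw [this, Set.ncard_singleton]
  · haveI : Nonempty (Fin n) := ⟨⟨0, by omega⟩⟩
    refine le_trans (Zf_le_one_of_no_edge G ?_) (one_le_Zf _)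
    intro a b hab
    have h0 : G.edgeSet = ∅ := by
      rwa [Set.ncard_eq_zero (Set.toFinite _)] at hG
    have : s(a, b) ∈ G.edgeSet := hab
    rw [h0] at this
    exact this

theorem main : ∃ c : ℝ, 0 < c ∧ ∀ n : ℕ, 2 ≤ n → ∀ m : ℕ,
    (m : ℝ) * Real.log n ^ 2 ≤ c * (n : ℝ) ^ 2 → ZfMax n m ≤ ZfMax n (m + 1) := by
  refine ⟨1 / 331776, by norm_num, ?_⟩
  intro n hn m hm
  have hlog2 : (1:ℝ) / 2 ≤ Real.log 2 := by have := Real.log_two_gt_d9; linarith
  have hn2 : (2:ℝ) ≤ n := by exact_mod_cast hn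
  have hlogn : Real.log 2 ≤ Real.log n := Real.log_le_log (by norm_num) hn2
  by_cases h5 : 5 ≤ n
  · apply ZfMax_le_of
    intro G hG
    obtain ⟨G', hG', hle⟩ := exists_next_graph n h5 G (by
      rw [hG]
      have h1 : ((Nat.log 2 n : ℕ) : ℝ) * Real.log 2 ≤ Real.log n := by
        rw [← Real.log_pow]
        apply Real.log_le_log (by positivity)
        exact_mod_cast Nat.pow_log_le_self 2 (by omega)
      have h2 : ((4 * (Nat.log 2 n + 1) + 10 : ℕ) : ℝ) ≤ 36 * Real.log n := by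
        push_cast
        have : ((Nat.log 2 n : ℕ) : ℝ) ≤ 2 * Real.log n := by
          have h0 : (0:ℝ) ≤ (Nat.log 2 n : ℕ) := by positivity
          nlinarith
        linarith
      have h3 : (((4 * (Nat.log 2 n + 1) + 10 : ℕ) : ℝ)) ^ 2 ≤ (36 * Real.log n) ^ 2 :=
        pow_le_pow_left₀ (by positivity) h2 2
      have h4 : (128 : ℝ) * (((4 * (Nat.log 2 n + 1) + 10 : ℕ) : ℝ)) ^ 2 * m < (n:ℝ) ^ 2 := by
        have hm0 : (0:ℝ) ≤ m := by positivity
        calc (128 : ℝ) * (((4 * (Nat.log 2 n + 1) + 10 : ℕ) : ℝ)) ^ 2 * m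
            ≤ 128 * (36 * Real.log n) ^ 2 * m := by
              apply mul_le_mul_of_nonneg_right _ hm0
              linarith
          _ = 165888 * (m * Real.log n ^ 2) := by ring
          _ ≤ 165888 * (1 / 331776 * (n:ℝ) ^ 2) := by linarith
          _ < (n:ℝ) ^ 2 := by nlinarith
      exact_mod_cast h4)
    exact ⟨G', by rw [hG', hG], hle⟩
  · have hn4 : (n:ℝ) ≤ 4 := by
      have : n ≤ 4 := by omega
      exact_mod_cast this
    have hm0 : m = 0 := by
      by_contra hne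
      have h1 : (1:ℝ) ≤ m := by exact_mod_cast Nat.one_le_iff_ne_zero.mpr hne
      have h2 : (1:ℝ) / 4 ≤ Real.log n ^ 2 := by nlinarith
      have h3 : (1:ℝ) / 4 ≤ m * Real.log n ^ 2 := by nlinarith
      nlinarith
    subst hm0
    exact ZfMax_zero_le n hn

end Pool.Agent.Helper868_zf
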